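import Mathlib

/-!
# A Hausdorff topologically periodic paratopological group that is not a topological group

`G` is the group of pairs `(x, a)`, `x ∈ 𝕋^ℝ`, `a ∈ ℚ`, with `x_i = a√2 mod 1` for all but
countably many `i`. A neighbourhood base at the unit is given by the sets of those `(x, a)` with
`x` in a neighbourhood of `0` in `𝕋^ℝ` and `a ∈ cone n`, where `cone n ⊆ ℚ` consists of the
rationals whose finest nonzero digit modulo `ℤ` in the factorial base is small and positive.
-/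

namespace Pool.Agent.Results.MP_82b063_al.PeriodicPracompact

open Topology Filter Set Pointwise
open scoped Nat

/-- Every locally finite family of nonempty open subsets of `X` is finite. -/
def Pseudocompact (X : Type) [TopologicalSpace X] : Prop :=
  ∀ 𝒰 : Set (Set X), (∀ U ∈ 𝒰, IsOpen U ∧ U.Nonempty) →
    LocallyFinite (fun U : 𝒰 => (U : Set X)) → 𝒰.Finite

/-- Some dense `D` is such that every infinite `B ⊆ D` has an accumulation point in `X`. -/
def CountablyPracompact (X : Type) [TopologicalSpace X] : Prop :=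
  ∃ D : Set X, Dense D ∧ ∀ B ⊆ D, B.Infinite → ∃ x : X, ∀ U ∈ 𝓝 x, (B ∩ U).Infinite

/-- Every neighbourhood of the unit contains a positive power of each element. -/
def TopologicallyPeriodic (G : Type) [Group G] [TopologicalSpace G] : Prop :=
  ∀ x : G, ∀ U ∈ 𝓝 (1 : G), ∃ n : ℕ, 1 ≤ n ∧ x ^ n ∈ U

/-- For every neighbourhood `U` of the unit, `F * U = G` for some countable `F`. -/
def LeftOmegaPrecompact (G : Type) [Group G] [TopologicalSpace G] : Prop :=
  ∀ U ∈ 𝓝 (1 : G), ∃ F : Set G, F.Countable ∧ F * U = univ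

/-! ### The cones in `ℚ` -/

/-- `v` lies in `cone i` if the finest nonzero digit of `v` modulo `ℤ` in the factorial base is,
relative to its base, at most `2^(-i)`. -/
def cone (i : ℕ) : Set ℚ :=
  {v | ∀ j : ℕ, Int.fract ((j ! : ℚ) * v) ≠ 0 → Int.fract (((j + 1)! : ℕ) * v : ℚ) = 0 →
    Int.fract ((j ! : ℚ) * v) ≤ (1 / 2) ^ i}

lemma fract_eq_zero_iff' {q : ℚ} : Int.fract q = 0 ↔ ∃ z : ℤ, (z : ℚ) = q := by
  rw [Int.fract_eq_zero_iff]; rfl

lemma fract_mul_of {q : ℚ} (n : ℕ) (h : Int.fract q = 0) : Int.fract ((n : ℚ) * q) = 0 := by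
  rw [fract_eq_zero_iff'] at h ⊢
  obtain ⟨z, rfl⟩ := h
  exact ⟨n * z, by push_cast; ring⟩

lemma fract_add_of {p q : ℚ} (hp : Int.fract p = 0) (hq : Int.fract q = 0) :
    Int.fract (p + q) = 0 := by
  rw [fract_eq_zero_iff'] at *
  obtain ⟨z, rfl⟩ := hp
  obtain ⟨w, rfl⟩ := hq
  exact ⟨z + w, by push_cast; ring⟩

lemma fract_sub_of {p q : ℚ} (hp : Int.fract p = 0) (hq : Int.fract q = 0) :
    Int.fract (p - q) = 0 := by
  rw [fract_eq_zero_iff'] at *
  obtain ⟨z, rfl⟩ := hp
  obtain ⟨w, rfl⟩ := hq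
  exact ⟨z - w, by push_cast; ring⟩

lemma fract_factorial_mono {v : ℚ} {j l : ℕ} (hjl : j ≤ l)
    (h : Int.fract ((j ! : ℚ) * v) = 0) : Int.fract ((l ! : ℚ) * v) = 0 := by
  obtain ⟨d, hd⟩ := Nat.factorial_dvd_factorial hjl
  rw [hd]
  have : ((j ! * d : ℕ) : ℚ) * v = (d : ℚ) * ((j ! : ℚ) * v) := by push_cast; ring
  rw [this]
  exact fract_mul_of d h

lemma exists_fract_factorial (v : ℚ) : ∃ N : ℕ, Int.fract ((N ! : ℚ) * v) = 0 := by
  refine ⟨v.den, ?_⟩
  obtain ⟨d, hd⟩ := Nat.dvd_factorial v.den_pos le_rfl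
  rw [hd, fract_eq_zero_iff']
  refine ⟨d * v.num, ?_⟩
  have h : (v.den : ℚ) * v = v.num := by
    rw [mul_comm]; exact Rat.mul_den_eq_num v
  push_cast
  linear_combination (-(d : ℚ)) * h

lemma mem_cone_of_fract {v : ℚ} (hv : Int.fract v = 0) (i : ℕ) : v ∈ cone i := by
  intro j hj
  exact absurd (fract_mul_of _ hv) hj

lemma zero_mem_cone (i : ℕ) : (0 : ℚ) ∈ cone i := mem_cone_of_fract (by simp) i

lemma cone_antitone : Antitone cone := by
  intro i j hij v hv k hk hk'
  refine (hv k hk hk').trans ?_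
  exact pow_le_pow_of_le_one (by norm_num) (by norm_num) hij

lemma mem_cone_zero (v : ℚ) : v ∈ cone 0 := by
  intro j _ _
  simpa using (Int.fract_lt_one _).le

lemma fract_add_eq {p q : ℚ} (h : Int.fract p + Int.fract q < 1) :
    Int.fract (p + q) = Int.fract p + Int.fract q := by
  rw [Int.fract_eq_iff]
  refine ⟨add_nonneg (Int.fract_nonneg _) (Int.fract_nonneg _), h, ⌊p⌋ + ⌊q⌋, ?_⟩
  rw [← Int.self_sub_floor p, ← Int.self_sub_floor q]
  push_cast
  ring

/-- key property: `cone (i+1) + cone (i+1) ⊆ cone i`. -/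
lemma cone_add {i : ℕ} {a b : ℚ} (ha : a ∈ cone (i + 1)) (hb : b ∈ cone (i + 1)) :
    a + b ∈ cone i := by
  rcases Nat.eq_zero_or_pos i with rfl | hi
  · exact mem_cone_zero _
  have hpow : ((1 : ℚ) / 2) ^ i ≤ 1 / 2 := by
    calc ((1 : ℚ) / 2) ^ i ≤ (1 / 2) ^ 1 := pow_le_pow_of_le_one (by norm_num) (by norm_num) hi
      _ = 1 / 2 := by norm_num
  have hsucc : ((1 : ℚ) / 2) ^ (i + 1) = (1 / 2) ^ i / 2 := by rw [pow_succ]; ring
  intro j hj hj'
  by_cases haj : Int.fract (((j + 1)! : ℕ) * a : ℚ) = 0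
  · have hbj : Int.fract (((j + 1)! : ℕ) * b : ℚ) = 0 := by
      have := fract_sub_of hj' haj
      rwa [show ((((j + 1)! : ℕ) : ℚ) * (a + b) - ((j + 1)! : ℕ) * a) = ((j + 1)! : ℕ) * b by ring]
        at this
    have h1 : Int.fract ((j ! : ℚ) * a) ≤ (1 / 2) ^ (i + 1) := by
      by_cases h0 : Int.fract ((j ! : ℚ) * a) = 0
      · rw [h0]; positivity
      · exact ha j h0 haj
    have h2 : Int.fract ((j ! : ℚ) * b) ≤ (1 / 2) ^ (i + 1) := by
      by_cases h0 : Int.fract ((j ! : ℚ) * b) = 0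
      · rw [h0]; positivity
      · exact hb j h0 hbj
    have h3 : Int.fract ((j ! : ℚ) * a) + Int.fract ((j ! : ℚ) * b) < 1 := by linarith
    rw [mul_add, fract_add_eq h3]
    linarith
  · exfalso
    -- the level of `a`
    obtain ⟨N, hN⟩ := exists_fract_factorial a
    have hex : ∃ n, Int.fract (((n + 1)! : ℕ) * a : ℚ) = 0 :=
      ⟨N, fract_factorial_mono (Nat.le_succ N) hN⟩
    classical
    let l := Nat.find hex
    have hl : Int.fract (((l + 1)! : ℕ) * a : ℚ) = 0 := Nat.find_spec hex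
    have hjl : j < l := by
      by_contra hlt
      push Not at hlt
      exact haj (fract_factorial_mono (by omega) hl)
    have hl' : Int.fract ((l ! : ℚ) * a) ≠ 0 := by
      intro h
      obtain ⟨m, hm⟩ : ∃ m, l = m + 1 := ⟨l - 1, by omega⟩
      have : m < Nat.find hex := by change m < l; omega
      apply Nat.find_min hex this
      rw [← hm]
      exact h
    have hla := ha l hl' hl
    -- `l! (a + b)` is an integer
    have hlab : Int.fract ((l ! : ℚ) * (a + b)) = 0 :=
      fract_factorial_mono (by omega) hj'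
    have hlab' : Int.fract (((l + 1)! : ℕ) * (a + b) : ℚ) = 0 :=
      fract_factorial_mono (Nat.le_succ l) hlab
    have hlb' : Int.fract (((l + 1)! : ℕ) * b : ℚ) = 0 := by
      have := fract_sub_of hlab' hl
      rwa [show ((((l + 1)! : ℕ) : ℚ) * (a + b) - ((l + 1)! : ℕ) * a) = ((l + 1)! : ℕ) * b by ring]
        at this
    have hlb : Int.fract ((l ! : ℚ) * b) ≠ 0 := by
      intro h
      apply hl'
      have := fract_sub_of hlab h
      rwa [show (((l ! : ℕ) : ℚ) * (a + b) - (l ! : ℕ) * b) = (l ! : ℕ) * a by ring] at this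
    have hlb2 := hb l hlb hlb'
    have h3 : Int.fract ((l ! : ℚ) * a) + Int.fract ((l ! : ℚ) * b) < 1 := by linarith
    have h4 := fract_add_eq h3
    rw [← mul_add, hlab] at h4
    have h5 : 0 < Int.fract ((l ! : ℚ) * a) := lt_of_le_of_ne (Int.fract_nonneg _) (Ne.symm hl')
    have h6 := Int.fract_nonneg ((l ! : ℚ) * b)
    linarith

/-- The sequence `t n = 1/(n+1)!`. -/
def t (n : ℕ) : ℚ := 1 / ((n + 1)! : ℕ)

lemma t_injective : Function.Injective t := by
  intro m n h
  unfold t at h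
  have h1 : (((m + 1)! : ℕ) : ℚ) = ((n + 1)! : ℕ) := by
    have hm : (((m + 1)! : ℕ) : ℚ) ≠ 0 := by positivity
    have hn : (((n + 1)! : ℕ) : ℚ) ≠ 0 := by positivity
    field_simp at h
    exact h.symm
  have h2 : (m + 1)! = (n + 1)! := by exact_mod_cast h1
  have := (Nat.factorial_inj' (n := m + 1) (m := n + 1))
  rcases Nat.lt_trichotomy m n with h | h | h
  · exact absurd h2 (Nat.factorial_lt (Nat.succ_pos m) |>.2 (by omega)).ne
  · exact h
  · exact absurd h2 (Nat.factorial_lt (Nat.succ_pos n) |>.2 (by omega)).ne'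

lemma fact_mul_t (n : ℕ) : (n ! : ℚ) * t n = 1 / ((n : ℚ) + 1) := by
  unfold t
  rw [Nat.factorial_succ]
  have : (n ! : ℚ) ≠ 0 := by positivity
  push_cast
  field_simp

lemma fract_t_sub {v : ℚ} {n : ℕ} (hn : 1 ≤ n) (h : Int.fract ((n ! : ℚ) * v) = 0) :
    Int.fract ((n ! : ℚ) * (t n - v)) = 1 / ((n : ℚ) + 1) := by
  rw [fract_eq_zero_iff'] at h
  obtain ⟨z, hz⟩ := h
  rw [mul_sub, ← hz, fact_mul_t, Int.fract_sub_intCast, Int.fract_eq_self]
  constructor
  · positivity
  · rw [div_lt_one (by positivity)]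
    have : (1 : ℚ) ≤ n := by exact_mod_cast hn
    linarith

lemma t_sub_mem_cone (v : ℚ) (i : ℕ) : ∀ᶠ n in atTop, t n - v ∈ cone i := by
  obtain ⟨N, hN⟩ := exists_fract_factorial v
  have h2i : 0 < 2 ^ i := by positivity
  filter_upwards [eventually_ge_atTop (N + 2 ^ i + 1)] with n hn
  have h0 : Int.fract ((n ! : ℚ) * v) = 0 := fract_factorial_mono (by omega) hN
  have h1 := fract_t_sub (n := n) (by omega) h0
  have h2 : Int.fract (((n + 1)! : ℕ) * (t n - v) : ℚ) = 0 := by
    rw [mul_sub]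
    apply fract_sub_of
    · unfold t
      have : (((n + 1)! : ℕ) : ℚ) ≠ 0 := by positivity
      field_simp
      simp
    · exact fract_factorial_mono (Nat.le_succ n) h0
  intro j hj hj'
  have hjn : j = n := by
    by_contra hne
    rcases Nat.lt_or_gt_of_ne hne with hlt | hgt
    · have h3 : Int.fract ((n ! : ℚ) * (t n - v)) = 0 :=
        fract_factorial_mono (by omega) hj'
      rw [h1] at h3
      have : (0 : ℚ) < 1 / ((n : ℚ) + 1) := by positivity
      linarith
    · exact hj (fract_factorial_mono (by omega) h2)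
  subst hjn
  rw [h1, one_div, one_div, inv_pow]
  apply inv_anti₀ (by positivity)
  have : ((2 : ℚ)) ^ i ≤ j := by
    have : 2 ^ i ≤ j := by omega
    exact_mod_cast this
  linarith

lemma neg_t_not_mem_cone {n : ℕ} (hn : 2 ≤ n) : -t n ∉ cone 1 := by
  intro h
  have h1 := fract_t_sub (v := 0) (n := n) (by omega) (by simp)
  rw [sub_zero] at h1
  have h2 : Int.fract ((n ! : ℚ) * (-t n)) = 1 - 1 / ((n : ℚ) + 1) := by
    rw [mul_neg, Int.fract_neg, h1]
    rw [h1]
    positivity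
  have hn' : (2 : ℚ) ≤ n := by exact_mod_cast hn
  have h3 : (1 : ℚ) / ((n : ℚ) + 1) ≤ 1 / 3 := by
    apply one_div_le_one_div_of_le <;> linarith
  have h4 := h n (by rw [h2]; linarith) (by
    rw [mul_neg, fract_eq_zero_iff']
    refine ⟨-1, ?_⟩
    unfold t
    have : (((n + 1)! : ℕ) : ℚ) ≠ 0 := by positivity
    field_simp
    simp)
  rw [h2, pow_one] at h4
  linarith

/-! ### The topology on a copy of `ℚ` -/

/-- A copy of the additive group `ℚ`, to be given a new topology. -/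
def Q : Type := ℚ

instance : AddCommGroup Q := inferInstanceAs (AddCommGroup ℚ)

/-- The identity `Q → ℚ`. -/
def val : Q ≃+ ℚ := AddEquiv.refl ℚ

/-- The neighbourhood filters `a + cone i`. -/
def nQ (a : Q) : Filter Q := ⨅ i : ℕ, 𝓟 {x : Q | val x - val a ∈ cone i}

lemma nQ_hasBasis (a : Q) :
    (nQ a).HasBasis (fun _ : ℕ => True) (fun i => {x : Q | val x - val a ∈ cone i}) := by
  apply hasBasis_iInf_principal
  intro i j
  refine ⟨max i j, ?_, ?_⟩
  · intro x hx
    exact cone_antitone (le_max_left i j) hx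
  · intro x hx
    exact cone_antitone (le_max_right i j) hx

instance : TopologicalSpace Q := TopologicalSpace.mkOfNhds nQ

lemma nhds_Q (a : Q) : 𝓝 a = nQ a := by
  refine TopologicalSpace.nhds_mkOfNhds_of_hasBasis nQ_hasBasis ?_ ?_ a
  · intro a i _
    simp only [mem_ofPred_eq, sub_self]
    exact zero_mem_cone i
  · intro a i _
    filter_upwards [(nQ_hasBasis a).mem_of_mem (i := i + 1) trivial] with x hx
    refine (nQ_hasBasis x).mem_iff.2 ⟨i + 1, trivial, ?_⟩
    intro y hy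
    have := cone_add hx hy
    change val y - val a ∈ cone i
    convert this using 1
    ring

lemma nhds_Q_hasBasis (a : Q) :
    (𝓝 a).HasBasis (fun _ : ℕ => True) (fun i => {x : Q | val x - val a ∈ cone i}) := by
  rw [nhds_Q]; exact nQ_hasBasis a

instance : ContinuousAdd Q := by
  constructor
  rw [continuous_iff_continuousAt]
  rintro ⟨a, b⟩
  rw [ContinuousAt, nhds_prod_eq]
  refine (((nhds_Q_hasBasis a).prod (nhds_Q_hasBasis b)).tendsto_iff (nhds_Q_hasBasis (a + b))).2 ?_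
  rintro i -
  refine ⟨(i + 1, i + 1), ⟨trivial, trivial⟩, ?_⟩
  rintro ⟨x, y⟩ ⟨hx, hy⟩
  have := cone_add hx hy
  change val (x + y) - val (a + b) ∈ cone i
  convert this using 1
  rw [map_add, map_add]
  ring

/-! ### The compact group `K` and the group `G` -/

/-- The compact group `𝕋^ℝ`. -/
abbrev K : Type := ℝ → UnitAddCircle

/-- The homomorphism `a ↦ a√2 mod 1` from `ℚ` to the circle. -/
noncomputable def c : ℚ →+ UnitAddCircle where
  toFun a := (((a : ℝ) * √2 : ℝ) : UnitAddCircle)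
  map_zero' := by simp
  map_add' a b := by
    push_cast
    rw [add_mul, AddCircle.coe_add]

lemma c_injective : Function.Injective c := by
  rw [injective_iff_map_eq_zero]
  intro a ha
  by_contra hne
  change (((a : ℝ) * √2 : ℝ) : UnitAddCircle) = 0 at ha
  rw [AddCircle.coe_eq_zero_iff] at ha
  obtain ⟨n, hn⟩ := ha
  have ha' : (a : ℝ) ≠ 0 := by exact_mod_cast hne
  have h2 : √2 = ((n / a : ℚ) : ℝ) := by
    push_cast
    field_simp
    rw [mul_comm]
    simpa using hn.symm
  exact irrational_sqrt_two ⟨_, h2.symm⟩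

lemma c_t_tendsto : Tendsto (fun n => c (t n)) atTop (𝓝 0) := by
  have h1 : Tendsto (fun n : ℕ => ((t n : ℚ) : ℝ)) atTop (𝓝 0) := by
    have h2 : ∀ n : ℕ, ((t n : ℚ) : ℝ) ≤ 1 / ((n : ℝ) + 1) := by
      intro n
      unfold t
      push_cast
      apply one_div_le_one_div_of_le (by positivity)
      have : n + 1 ≤ (n + 1)! := Nat.self_le_factorial _
      exact_mod_cast this
    refine squeeze_zero (fun n => ?_) h2 tendsto_one_div_add_atTop_nhds_zero_nat
    unfold t
    positivity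
  have h3 : Tendsto (fun n : ℕ => ((t n : ℚ) : ℝ) * √2) atTop (𝓝 0) := by
    simpa using h1.mul_const (√2)
  have h4 : Continuous (fun x : ℝ => (x : UnitAddCircle)) := AddCircle.continuous_mk' 1
  have h5 := (h4.tendsto 0).comp h3
  rw [AddCircle.coe_zero] at h5
  exact h5

/-- The group: pairs `(x, a)` with `x ∈ 𝕋^ℝ`, `a ∈ ℚ` and `x_i = a√2 mod 1` for all but countably
many `i`. Its topology is induced from the product of the compact group `K` and `Q`. -/
def G : AddSubgroup (K × Q) where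
  carrier := {p | {i | p.1 i ≠ c (val p.2)}.Countable}
  zero_mem' := by simp
  add_mem' := by
    rintro p q hp hq
    refine (hp.union hq).mono ?_
    intro i hi
    by_contra h
    simp only [mem_union, mem_ofPred_eq, not_or, not_not] at h
    apply hi
    simp [h.1, h.2]
  neg_mem' := by
    rintro p hp
    refine hp.mono ?_
    intro i hi
    by_contra h
    simp only [mem_ofPred_eq, not_not] at h
    apply hi
    simp [h]

instance : ContinuousAdd G := inferInstanceAs (ContinuousAdd G.toAddSubmonoid)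

lemma G_ext {g h : G} (h1 : g.1.1 = h.1.1) : g = h := by
  have h2 : g.1.2 = h.1.2 := by
    have hc : ({i | g.1.1 i ≠ c (val g.1.2)} ∪ {i | h.1.1 i ≠ c (val h.1.2)}).Countable :=
      g.2.union h.2
    obtain ⟨i, hi⟩ : ∃ i, i ∉ ({i | g.1.1 i ≠ c (val g.1.2)} ∪ {i | h.1.1 i ≠ c (val h.1.2)}) := by
      by_contra hcon
      push Not at hcon
      exact Set.not_countable_univ (hc.mono (fun i _ => hcon i) : (univ : Set ℝ).Countable)
    simp only [mem_union, mem_ofPred_eq, not_or, not_not] at hi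
    apply val.injective
    apply c_injective
    rw [← hi.1, ← hi.2, h1]
  exact Subtype.ext (Prod.ext h1 h2)

instance : T2Space G := by
  apply T2Space.of_injective_continuous (f := fun g : G => g.1.1)
  · intro g h hgh
    exact G_ext hgh
  · exact continuous_fst.comp continuous_subtype_val

/-- Basic neighbourhoods in `G`. -/
lemma mem_nhds_G (g : G) (U : Set G) :
    U ∈ 𝓝 g ↔ ∃ V ∈ 𝓝 g.1.1, ∃ i : ℕ, ∀ h : G, h.1.1 ∈ V → val h.1.2 - val g.1.2 ∈ cone i →
      h ∈ U := by
  rw [nhds_subtype_eq_comap, nhds_prod_eq, mem_comap]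
  constructor
  · rintro ⟨W, hW, hWU⟩
    obtain ⟨V, hV, V', hV', hVV⟩ := mem_prod_iff.1 hW
    obtain ⟨i, -, hi⟩ := (nhds_Q_hasBasis _).mem_iff.1 hV'
    refine ⟨V, hV, i, ?_⟩
    intro h h1 h2
    apply hWU
    apply hVV
    exact ⟨h1, hi h2⟩
  · rintro ⟨V, hV, i, h⟩
    refine ⟨V ×ˢ {x : Q | val x - val g.1.2 ∈ cone i},
      prod_mem_prod hV ((nhds_Q_hasBasis _).mem_of_mem trivial), ?_⟩
    rintro x ⟨hx1, hx2⟩
    exact h x hx1 hx2

/-- In a compact topological group every element is recurrent. -/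
lemma K_recurrent (z : K) (V : Set K) (hV : V ∈ 𝓝 (0 : K)) : ∃ k : ℕ, 1 ≤ k ∧ k • z ∈ V := by
  obtain ⟨W, hW, hWV⟩ : ∃ W ∈ 𝓝 (0 : K), ∀ x ∈ W, ∀ y ∈ W, x - y ∈ V := by
    have h : Tendsto (fun p : K × K => p.1 - p.2) (𝓝 (0, 0)) (𝓝 0) := by
      have this : Continuous (fun p : K × K => p.1 - p.2) := continuous_fst.sub continuous_snd
      have h2 := this.tendsto (0, 0)
      rwa [show ((0 : K), (0 : K)).1 - ((0 : K), (0 : K)).2 = 0 from sub_self 0] at h2
    obtain ⟨A, hA, B, hB, hAB⟩ := mem_nhds_prod_iff.1 (h hV)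
    exact ⟨A ∩ B, inter_mem hA hB, fun x hx y hy => hAB (mk_mem_prod hx.1 hy.2)⟩
  obtain ⟨w, hw⟩ := exists_clusterPt_of_compactSpace (map (fun k : ℕ => k • z) atTop)
  have hw' : MapClusterPt w atTop (fun k : ℕ => k • z) := hw
  have hN : {x | x - w ∈ W} ∈ 𝓝 w := by
    have : Tendsto (fun x : K => x - w) (𝓝 w) (𝓝 0) := by
      have h1 : Continuous (fun x : K => x - w) := continuous_id.sub continuous_const
      have h2 := h1.tendsto w
      rwa [sub_self] at h2
    exact this hW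
  have hfreq := (mapClusterPt_iff_frequently.1 hw') _ hN
  rw [frequently_atTop] at hfreq
  obtain ⟨k1, -, h1⟩ := hfreq 0
  obtain ⟨k2, hk2, h2⟩ := hfreq (k1 + 1)
  refine ⟨k2 - k1, by omega, ?_⟩
  have := hWV _ h2 _ h1
  have h3 : (k2 - k1) • z = (k2 • z - w) - (k1 • z - w) := by
    rw [sub_nsmul z (by omega : k1 ≤ k2)]
    abel
  rw [h3]
  exact this

lemma G_periodic (g : G) (U : Set G) (hU : U ∈ 𝓝 (0 : G)) : ∃ n : ℕ, 1 ≤ n ∧ n • g ∈ U := by
  obtain ⟨V, hV, i, h⟩ := (mem_nhds_G 0 U).1 hU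
  obtain ⟨k, hk, hkV⟩ := K_recurrent ((val g.1.2).den • g.1.1) V hV
  refine ⟨k * (val g.1.2).den, Nat.mul_pos hk (Rat.den_pos _), h _ ?_ ?_⟩
  · change (k * (val g.1.2).den) • g.1.1 ∈ V
    rw [mul_nsmul']
    exact hkV
  · apply mem_cone_of_fract
    change Int.fract (val ((k * (val g.1.2).den) • g.1.2) - val 0) = 0
    rw [map_nsmul, map_zero, sub_zero, fract_eq_zero_iff']
    refine ⟨k * (val g.1.2).num, ?_⟩
    have := Rat.mul_den_eq_num (val g.1.2)
    rw [nsmul_eq_mul]
    push_cast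
    rw [mul_assoc, mul_comm ((val g.1.2).den : ℚ), this]

instance : Countable Q := inferInstanceAs (Countable ℚ)

lemma G_precompact (U : Set G) (hU : U ∈ 𝓝 (0 : G)) :
    ∃ F : Set G, F.Countable ∧ F + U = univ := by
  obtain ⟨V, hV, i, h⟩ := (mem_nhds_G 0 U).1 hU
  obtain ⟨W, hW, hWV⟩ : ∃ W ∈ 𝓝 (0 : K), ∀ x ∈ W, ∀ y ∈ W, x - y ∈ V := by
    have h : Tendsto (fun p : K × K => p.1 - p.2) (𝓝 (0, 0)) (𝓝 0) := by
      have this : Continuous (fun p : K × K => p.1 - p.2) := continuous_fst.sub continuous_snd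
      have h2 := this.tendsto (0, 0)
      rwa [show ((0 : K), (0 : K)).1 - ((0 : K), (0 : K)).2 = 0 from sub_self 0] at h2
    obtain ⟨A, hA, B, hB, hAB⟩ := mem_nhds_prod_iff.1 (h hV)
    exact ⟨A ∩ B, inter_mem hA hB, fun x hx y hy => hAB (mk_mem_prod hx.1 hy.2)⟩
  obtain ⟨T, -, hT⟩ := (isCompact_univ (X := K)).elim_nhds_subcover (fun x => {y | y - x ∈ W}) (by
    intro x _
    have : Tendsto (fun y : K => y - x) (𝓝 x) (𝓝 0) := by
      have h1 : Continuous (fun y : K => y - x) := continuous_id.sub continuous_const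
      have h2 := h1.tendsto x
      rwa [sub_self] at h2
    exact this hW)
  classical
  let I := {p : T × Q // ∃ g : G, g.1.1 - p.1.1 ∈ W ∧ g.1.2 = p.2}
  let ψ : I → G := fun p => p.2.choose
  have hψ : ∀ p : I, (ψ p).1.1 - p.1.1.1 ∈ W ∧ (ψ p).1.2 = p.1.2 := fun p => p.2.choose_spec
  refine ⟨range ψ, countable_range ψ, ?_⟩
  rw [eq_univ_iff_forall]
  intro g
  have hg : g.1.1 ∈ ⋃ x ∈ T, {y | y - x ∈ W} := hT (mem_univ _)
  simp only [mem_iUnion, exists_prop] at hg
  obtain ⟨x, hxT, hgx⟩ := hg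
  let p : I := ⟨(⟨x, hxT⟩, g.1.2), g, hgx, rfl⟩
  refine mem_add.2 ⟨ψ p, mem_range_self p, g - ψ p, ?_, add_sub_cancel _ _⟩
  obtain ⟨h1, h2⟩ := hψ p
  apply h
  · have := hWV _ hgx _ h1
    change g.1.1 - (ψ p).1.1 ∈ V
    have h3 : g.1.1 - (ψ p).1.1 = (g.1.1 - x) - ((ψ p).1.1 - x) := by abel
    rw [h3]
    exact this
  · change val (g.1.2 - (ψ p).1.2) - val 0 ∈ cone i
    rw [h2]
    simp only [p, sub_self]
    exact zero_mem_cone i

/-- The dense set witnessing countable pracompactness. -/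
def D : Set G := {g | ∃ n, val g.1.2 = t n}

lemma D_dense : Dense D := by
  intro g
  rw [mem_closure_iff_nhds]
  intro U hU
  obtain ⟨V, hV, i, h⟩ := (mem_nhds_G g U).1 hU
  obtain ⟨n, hn⟩ := (t_sub_mem_cone (val g.1.2) i).exists
  obtain ⟨O, hOV, hO, hx⟩ := mem_nhds_iff.1 hV
  obtain ⟨I, u, hu, hsub⟩ := isOpen_pi_iff.1 hO _ hx
  classical
  let y : K := fun j => if j ∈ I then g.1.1 j else c (t n)
  have hy : (y, val.symm (t n)) ∈ G := by
    change {j | y j ≠ c (val (val.symm (t n)))}.Countable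
    refine (I.finite_toSet.countable).mono ?_
    intro j hj
    by_contra hjI
    apply hj
    have : j ∉ I := hjI
    simp [y, this]
  refine ⟨⟨_, hy⟩, h _ ?_ ?_, n, ?_⟩
  · apply hOV
    apply hsub
    intro j hj
    have hj' : j ∈ I := hj
    have : y j = g.1.1 j := by simp [y, hj']
    change y j ∈ u j
    rw [this]
    exact (hu j hj').2
  · simpa using hn
  · simp

lemma D_accumulation (B : Set G) (hBD : B ⊆ D) (hB : B.Infinite) :
    ∃ x : G, ∀ U ∈ 𝓝 x, (B ∩ U).Infinite := by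
  let b : ℕ ↪ B := hB.natEmbedding
  have hn : ∀ k, ∃ n, val (b k).1.1.2 = t n := fun k => hBD (b k).2
  choose n hn using hn
  let 𝒱 : Ultrafilter ℕ := hyperfilter ℕ
  let f : ℕ → K := fun k => (b k).1.1.1
  let x : K := (𝒱.map f).lim
  have hx : Tendsto f 𝒱 (𝓝 x) := (𝒱.map f).le_nhds_lim
  obtain ⟨a, ha1, ha2⟩ : ∃ a : ℚ, Tendsto (fun k => c (t (n k))) 𝒱 (𝓝 (c a)) ∧
      ∀ i, ∀ᶠ k in (𝒱 : Filter ℕ), t (n k) - a ∈ cone i := by
    rcases (𝒱.map n).le_cofinite_or_eq_pure with h | ⟨N, hN⟩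
    · have hT : Tendsto n 𝒱 atTop := by
        rw [← Nat.cofinite_eq_atTop]
        exact h
      refine ⟨0, ?_, fun i => hT.eventually (t_sub_mem_cone 0 i)⟩
      rw [map_zero]
      exact c_t_tendsto.comp hT
    · have hE : ∀ᶠ k in (𝒱 : Filter ℕ), n k = N := by
        have : {N} ∈ 𝒱.map n := by rw [hN]; exact Ultrafilter.mem_pure.2 rfl
        exact this
      refine ⟨t N, ?_, fun i => ?_⟩
      · refine (tendsto_const_nhds (x := c (t N))).congr' ?_
        filter_upwards [hE] with k hk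
        rw [hk]
      · filter_upwards [hE] with k hk
        rw [hk, sub_self]
        exact zero_mem_cone i
  have hmem : (x, val.symm a) ∈ G := by
    change {j | x j ≠ c (val (val.symm a))}.Countable
    refine (countable_iUnion (fun k => (b k).1.2)).mono ?_
    intro j hj
    by_contra hcon
    apply hj
    have h1 : ∀ k, f k j = c (t (n k)) := by
      intro k
      by_contra hk
      apply hcon
      refine mem_iUnion.2 ⟨k, ?_⟩
      change (b k).1.1.1 j ≠ c (val (b k).1.1.2)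
      rw [hn k]
      exact hk
    have h2 : Tendsto (fun k => f k j) 𝒱 (𝓝 (x j)) := (tendsto_pi_nhds.1 hx) j
    simp only [h1] at h2
    rw [AddEquiv.apply_symm_apply]
    exact tendsto_nhds_unique h2 ha1
  refine ⟨⟨_, hmem⟩, fun U hU => ?_⟩
  obtain ⟨V, hV, i, h⟩ := (mem_nhds_G _ U).1 hU
  have hS : {k | (b k).1 ∈ U} ∈ (𝒱 : Filter ℕ) := by
    filter_upwards [hx hV, ha2 i] with k hk1 hk2
    apply h _ hk1
    rw [hn k]
    simpa using hk2
  have hinf : {k | (b k).1 ∈ U}.Infinite := by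
    intro hfin
    exact notMem_hyperfilter_of_finite hfin hS
  have hinj : Function.Injective (fun k => (b k).1) := fun k l hkl => b.injective (Subtype.ext hkl)
  refine (hinf.image hinj.injOn).mono ?_
  rintro _ ⟨k, hk, rfl⟩
  exact ⟨(b k).2, hk⟩

lemma G_not_neg : ¬ ContinuousNeg G := by
  intro hneg
  have h1 : {g : G | val g.1.2 ∈ cone 1} ∈ 𝓝 (0 : G) := by
    rw [mem_nhds_G]
    refine ⟨univ, univ_mem, 1, ?_⟩
    intro h _ h2
    have : val (0 : G).1.2 = 0 := rfl
    rw [this, sub_zero] at h2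
    exact h2
  have h2 : {g : G | val (-g).1.2 ∈ cone 1} ∈ 𝓝 (0 : G) := by
    have := (continuous_neg (G := G)).tendsto 0
    rw [neg_zero] at this
    exact this h1
  obtain ⟨V, hV, i, h⟩ := (mem_nhds_G _ _).1 h2
  have h3 : Tendsto (fun n => (fun _ => c (t n) : K)) atTop (𝓝 0) := by
    rw [tendsto_pi_nhds]
    intro j
    exact c_t_tendsto
  obtain ⟨n, hn1, hn2, hn3⟩ := ((h3.eventually hV).and ((t_sub_mem_cone 0 i).and (eventually_ge_atTop 2))).exists
  have hmem : ((fun _ => c (t n) : K), val.symm (t n)) ∈ G := by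
    change {j | (fun _ => c (t n) : K) j ≠ c (val (val.symm (t n)))}.Countable
    simp
  have h4 := h ⟨_, hmem⟩ hn1 (by
    have : val (0 : G).1.2 = 0 := rfl
    rw [this]
    simpa using hn2)
  have h5 : val (-(⟨_, hmem⟩ : G)).1.2 = - t n := by
    change val (-(val.symm (t n))) = - t n
    rw [map_neg, AddEquiv.apply_symm_apply]
  change val (-(⟨_, hmem⟩ : G)).1.2 ∈ cone 1 at h4
  rw [h5] at h4
  exact neg_t_not_mem_cone hn3 h4

/-- A countably pracompact space is pseudocompact. -/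
lemma CountablyPracompact.pseudocompact {X : Type} [TopologicalSpace X]
    (h : CountablyPracompact X) : Pseudocompact X := by
  obtain ⟨D, hD, hacc⟩ := h
  intro 𝒰 h𝒰 hfin
  by_contra hinf
  have hinf' : 𝒰.Infinite := hinf
  have hchoice : ∀ U : 𝒰, ∃ d, d ∈ D ∧ d ∈ (U : Set X) := by
    intro U
    obtain ⟨d, hd1, hd2⟩ := hD.inter_open_nonempty U (h𝒰 U U.2).1 (h𝒰 U U.2).2
    exact ⟨d, hd2, hd1⟩
  choose d hdD hdU using hchoice
  have hB : (range d).Infinite := by
    intro hBfin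
    have : Finite 𝒰 := by
      have h1 : (univ : Set 𝒰) ⊆ ⋃ x ∈ range d, {U : 𝒰 | x ∈ (U : Set X)} := by
        intro U _
        simp only [mem_iUnion]
        exact ⟨d U, mem_range_self U, hdU U⟩
      have h2 : (⋃ x ∈ range d, {U : 𝒰 | x ∈ (U : Set X)}).Finite :=
        hBfin.biUnion (fun x _ => hfin.point_finite x)
      exact Set.finite_univ_iff.1 (h2.subset h1)
    exact hinf' (Set.toFinite 𝒰)
  obtain ⟨x, hx⟩ := hacc (range d) (by rintro _ ⟨U, rfl⟩; exact hdD U) hB
  obtain ⟨W, hW, hWfin⟩ := hfin x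
  apply hx W hW
  refine (hWfin.image d).subset ?_
  rintro _ ⟨⟨U, rfl⟩, hUW⟩
  exact ⟨U, ⟨d U, hdU U, hUW⟩, rfl⟩

/-- There is a Hausdorff topologically periodic (abelian) paratopological group which is left
omega-precompact, countably pracompact and pseudocompact, but not a topological group. -/
theorem result : ∃ (G : Type) (_ : CommGroup G) (_ : TopologicalSpace G),
    ContinuousMul G ∧ T2Space G ∧ TopologicallyPeriodic G ∧ LeftOmegaPrecompact G ∧
    CountablyPracompact G ∧ Pseudocompact G ∧ ¬ IsTopologicalGroup G := by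
  have hcp : CountablyPracompact (Multiplicative G) := ⟨D, D_dense, D_accumulation⟩
  refine ⟨Multiplicative G, inferInstance, inferInstance, inferInstance, inferInstanceAs (T2Space G),
    G_periodic, G_precompact, hcp, hcp.pseudocompact, ?_⟩
  intro htop
  apply G_not_neg
  exact ⟨(continuous_inv (G := Multiplicative G))⟩

end Pool.Agent.Results.MP_82b063_al.PeriodicPracompact
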